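import Pool.Agent.Helper630.Szego.AbsCont
import Pool.Agent.Helper630.Szego.Example

/-! The half plane function of `Helper630.Szego` with weights `δ n * (1/2)^n`, `δ` antitone and
arbitrarily fast decreasing. -/

open Finset MeasureTheory Filter Topology Complex

namespace Pool.Agent.Y285.SZ

open Pool.Agent.Helper630.Szego

/-- admissible weights -/
structure IsWt (δ : ℕ → ℝ) : Prop where
  pos : ∀ n, 0 < δ n
  le_one : ∀ n, δ n ≤ 1
  anti : Antitone δ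

/-- the terms of the series -/
noncomputable def gtD (δ : ℕ → ℝ) (n : ℕ) (w : ℂ) : ℂ := ((δ n * (1 / 2 : ℝ) ^ n : ℝ) : ℂ) * tt (w - (n + 1 : ℝ) * I)

/-- the function `g` on the right half plane -/
noncomputable def ggD (δ : ℕ → ℝ) (w : ℂ) : ℂ := ∑' n, gtD δ n w

variable {δ : ℕ → ℝ}

lemma gtD_norm_le (hδ : IsWt δ) (n : ℕ) {w : ℂ} {R : ℝ} (hw : ‖w‖ ≤ R) : ‖gtD δ n w‖ ≤ (1 / 2 : ℝ) ^ n * (R + n + 2) := by
  unfold gtD
  have h0 := hδ.pos n
  have h01 := hδ.le_one n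
  have hR : 0 ≤ R := (norm_nonneg _).trans hw
  rw [norm_mul, Complex.norm_real, Real.norm_of_nonneg (by positivity)]
  have h1 := tt_norm_sq (w - (n + 1 : ℝ) * I)
  have h2 : ‖w - ((n + 1 : ℝ) : ℂ) * I‖ ≤ R + (n + 1) := by
    refine (norm_sub_le _ _).trans ?_
    rw [norm_mul, Complex.norm_real, norm_I, mul_one, Real.norm_of_nonneg (by positivity)]
    linarith
  have h3 : ‖tt (w - ((n + 1 : ℝ) : ℂ) * I)‖ ^ 2 ≤ (R + n + 2) ^ 2 := by
    rw [h1]
    refine h2.trans ?_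
    have : (1:ℝ) ≤ R + n + 2 := by linarith [Nat.cast_nonneg (α := ℝ) n]
    nlinarith
  have h4 := le_of_sq_le_sq h3 (by positivity)
  calc δ n * (1 / 2 : ℝ) ^ n * ‖tt (w - ((n + 1 : ℝ) : ℂ) * I)‖ ≤ 1 * (1 / 2 : ℝ) ^ n * (R + n + 2) := by
        gcongr
    _ = _ := by ring

lemma ggD_summable (hδ : IsWt δ) (w : ℂ) : Summable (fun n => gtD δ n w) :=
  Summable.of_norm_bounded (gt_summable ‖w‖) fun n => gtD_norm_le hδ n le_rfl

lemma ggD_re (hδ : IsWt δ) (w : ℂ) : (ggD δ w).re = ∑' n, (gtD δ n w).re := by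
  unfold ggD
  exact Complex.re_tsum (ggD_summable hδ w)

lemma gtD_re (n : ℕ) (w : ℂ) : (gtD δ n w).re = δ n * (1 / 2 : ℝ) ^ n * (tt (w - (n + 1 : ℝ) * I)).re := by
  unfold gtD
  rw [Complex.re_ofReal_mul]

lemma gtD_re_nonneg (hδ : IsWt δ) (n : ℕ) {w : ℂ} (hw : 0 ≤ w.re) : 0 ≤ (gtD δ n w).re := by
  rw [gtD_re]
  have := hδ.pos n
  exact mul_nonneg (by positivity) (tt_nonneg (by rw [gt_sub_re]; exact hw)).1

lemma ggD_re_summable (hδ : IsWt δ) (w : ℂ) : Summable (fun n => (gtD δ n w).re) :=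
  (Complex.hasSum_re (ggD_summable hδ w).hasSum).summable

/-- lower bound -/
lemma ggD_re_ge (hδ : IsWt δ) (n : ℕ) {w : ℂ} (hw : 0 ≤ w.re) (hi : w.im ≤ n) :
    δ n * (1 / 2 : ℝ) ^ n ≤ (ggD δ w).re := by
  rw [ggD_re hδ]
  refine le_trans ?_ ((ggD_re_summable hδ w).le_tsum n fun j _ => gtD_re_nonneg hδ j hw)
  rw [gtD_re]
  have := tt_re_ge (u := w - (n + 1 : ℝ) * I) (by rw [gt_sub_re]; exact hw) (by rw [gt_sub_im]; linarith)
  have h2 : (0:ℝ) < δ n * (1 / 2) ^ n := mul_pos (hδ.pos n) (by positivity)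
  nlinarith

/-- upper bound on the boundary -/
lemma ggD_re_le (hδ : IsWt δ) (m : ℕ) {y : ℝ} (hy : (m : ℝ) ≤ y) :
    (ggD δ (y * I)).re ≤ δ m * (1 / 2 : ℝ) ^ m * 6 := by
  rw [ggD_re hδ]
  have h0 : ∀ n, n < m → (gtD δ n (y * I)).re = 0 := by
    intro n hn
    rw [gtD_re, tt_re_zero, mul_zero]
    · rw [gt_sub_re]; simp
    · rw [gt_sub_im]
      simp
      have : ((n + 1 : ℕ) : ℝ) ≤ m := by exact_mod_cast hn
      push_cast at this
      linarith
  rw [← (ggD_re_summable hδ (y * I)).sum_add_tsum_nat_add m, Finset.sum_eq_zero (fun n hn => h0 n (Finset.mem_range.1 hn)), zero_add]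
  have hs : Summable (fun j : ℕ => δ m * (1 / 2 : ℝ) ^ m * ((1 / 2 : ℝ) ^ j * (0 + j + 2))) := (gt_summable 0).mul_left _
  have hle : ∀ j : ℕ, (gtD δ (j + m) (y * I)).re ≤ δ m * (1 / 2 : ℝ) ^ m * ((1 / 2 : ℝ) ^ j * (0 + j + 2)) := by
    intro j
    have hm0 := hδ.pos m
    have hjm : δ (j + m) ≤ δ m := hδ.anti (Nat.le_add_left m j)
    have hjm0 := hδ.pos (j + m)
    have hmain : (tt ((y : ℂ) * I - (((j + m : ℕ) : ℝ) + 1 : ℝ) * I)).re ≤ 0 + j + 2 := by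
      by_cases hc : y ≤ ((j + m : ℕ) : ℝ) + 1
      · have h1 := tt_re_sq ((y : ℂ) * I - (((j + m : ℕ) : ℝ) + 1 : ℝ) * I)
        have h2 := tt_re_mul_im ((y : ℂ) * I - (((j + m : ℕ) : ℝ) + 1 : ℝ) * I)
        have h3 := tt_nonneg (u := (y : ℂ) * I - (((j + m : ℕ) : ℝ) + 1 : ℝ) * I) (by rw [gt_sub_re]; simp)
        rw [gt_sub_re] at h2
        rw [gt_sub_im] at h1
        simp only [mul_re, ofReal_re, I_re, mul_zero, ofReal_im, I_im, mul_one, sub_self, mul_im, add_zero, zero_mul] at h1 h2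
        set a := (tt ((y : ℂ) * I - (((j + m : ℕ) : ℝ) + 1 : ℝ) * I)).re with ha
        set b := (tt ((y : ℂ) * I - (((j + m : ℕ) : ℝ) + 1 : ℝ) * I)).im with hb
        have h4 : a ^ 2 ≤ (0 + j + 2) ^ 2 := by
          have hab : a * b = 0 := by linarith
          rcases mul_eq_zero.1 hab with h | h
          · rw [h, zero_pow two_ne_zero]; positivity
          · rw [h] at h1
            have : a ^ 2 ≤ j + 1 := by
              push_cast at h1
              nlinarith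
            nlinarith [Nat.cast_nonneg (α := ℝ) j]
        exact le_of_sq_le_sq h4 (by positivity)
      · rw [tt_re_zero]
        · positivity
        · rw [gt_sub_re]; simp
        · rw [gt_sub_im]
          simp only [mul_im, ofReal_re, I_im, mul_one, ofReal_im, I_re, mul_zero, add_zero]
          linarith
    have hnn : 0 ≤ (tt ((y : ℂ) * I - (((j + m : ℕ) : ℝ) + 1 : ℝ) * I)).re :=
      (tt_nonneg (u := (y : ℂ) * I - (((j + m : ℕ) : ℝ) + 1 : ℝ) * I) (by rw [gt_sub_re]; simp)).1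
    rw [gtD_re, pow_add]
    calc δ (j + m) * ((1 / 2 : ℝ) ^ j * (1 / 2 : ℝ) ^ m) *
          (tt ((y : ℂ) * I - (((j + m : ℕ) : ℝ) + 1 : ℝ) * I)).re
        ≤ δ m * ((1 / 2 : ℝ) ^ j * (1 / 2 : ℝ) ^ m) * (0 + j + 2) := by gcongr
      _ = _ := by ring
  have hs2 : Summable (fun j => (gtD δ (j + m) (y * I)).re) := (summable_nat_add_iff m).2 (ggD_re_summable hδ _)
  refine (hs2.tsum_le_tsum hle hs).trans ?_
  rw [tsum_mul_left]
  have h5 : ∑' j : ℕ, (1 / 2 : ℝ) ^ j * (0 + j + 2) = 6 := by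
    have e1 : HasSum (fun j : ℕ => (j : ℝ) * (1 / 2 : ℝ) ^ j) 2 := by
      have := hasSum_coe_mul_geometric_of_norm_lt_one (r := (1 / 2 : ℝ)) (by norm_num)
      norm_num at this ⊢
      exact this
    have e2 : HasSum (fun j : ℕ => (1 / 2 : ℝ) ^ j) 2 := hasSum_geometric_two
    have e3 := e1.add (e2.mul_left 2)
    norm_num at e3
    rw [← e3.tsum_eq]
    refine tsum_congr fun j => ?_
    norm_num
    ring
  rw [h5]

lemma ggD_differentiableOn (hδ : IsWt δ) : DifferentiableOn ℂ (ggD δ) {w | 0 < w.re} := by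
  intro w hw
  have hopen : IsOpen ({w : ℂ | 0 < w.re} ∩ Metric.ball 0 (‖w‖ + 1)) :=
    (isOpen_lt continuous_const Complex.continuous_re).inter Metric.isOpen_ball
  have h := differentiableOn_tsum_of_summable_norm (F := gtD δ) (gt_summable (‖w‖ + 1)) (fun n => ?_) hopen
    (fun n v hv => gtD_norm_le hδ n (mem_ball_zero_iff.1 hv.2).le)
  · have hmem : w ∈ ({w : ℂ | 0 < w.re} ∩ Metric.ball 0 (‖w‖ + 1)) := ⟨hw, by simp⟩
    exact (h.differentiableAt (hopen.mem_nhds hmem)).differentiableWithinAt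
  · intro v hv
    have h1 : DifferentiableAt ℂ tt (v - (n + 1 : ℝ) * I) := tt_differentiableAt (by rw [gt_sub_re]; exact hv.1)
    unfold gtD
    exact (((differentiableAt_const _).mul (h1.comp v ((differentiableAt_id).sub_const _)))).differentiableWithinAt

lemma ggD_continuousOn (hδ : IsWt δ) : ContinuousOn (ggD δ) {w | 0 ≤ w.re} := by
  intro w hw
  have h := continuousOn_tsum (f := gtD δ) (s := {w : ℂ | 0 ≤ w.re} ∩ Metric.ball 0 (‖w‖ + 1)) (fun n => ?_)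
    (gt_summable (‖w‖ + 1)) (fun n v hv => gtD_norm_le hδ n (mem_ball_zero_iff.1 hv.2).le)
  · have hmem : w ∈ ({w : ℂ | 0 ≤ w.re} ∩ Metric.ball 0 (‖w‖ + 1)) := ⟨hw, by simp⟩
    have h2 := h w hmem
    exact (continuousWithinAt_inter (Metric.isOpen_ball.mem_nhds hmem.2)).1 h2
  · intro v hv
    have h1 : ContinuousAt tt (v - (n + 1 : ℝ) * I) := tt_continuousAt (by rw [gt_sub_re]; exact hv.1)
    have h2 : ContinuousAt (fun v : ℂ => v - (n + 1 : ℝ) * I) v := by fun_prop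
    have h3 : ContinuousAt (fun v : ℂ => tt (v - (n + 1 : ℝ) * I)) v := ContinuousAt.comp (g := tt) h1 h2
    exact (continuousAt_const.mul h3).continuousWithinAt

/-- the function `h` -/
noncomputable def hhD (δ : ℕ → ℝ) (z : ℂ) : ℂ := Complex.exp (-ggD δ (cay z))

lemma hhD_norm (z : ℂ) : ‖hhD δ z‖ = Real.exp (-(ggD δ (cay z)).re) := by
  unfold hhD
  rw [Complex.norm_exp, Complex.neg_re]

lemma hhD_norm_le (hδ : IsWt δ) (n : ℕ) {z : ℂ} (hz : 0 ≤ (cay z).re) (hi : (cay z).im ≤ n) :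
    ‖hhD δ z‖ ≤ Real.exp (-(δ n * (1 / 2 : ℝ) ^ n)) := by
  rw [hhD_norm]
  exact Real.exp_le_exp.2 (neg_le_neg (ggD_re_ge hδ n hz hi))

lemma wt_pos (hδ : IsWt δ) (n : ℕ) : (0:ℝ) < δ n * (1 / 2) ^ n := mul_pos (hδ.pos n) (by positivity)

lemma hhD_lt_one (hδ : IsWt δ) {z : ℂ} (hz : 0 ≤ (cay z).re) : ‖hhD δ z‖ < 1 := by
  obtain ⟨n, hn⟩ := exists_nat_ge (cay z).im
  refine (hhD_norm_le hδ n hz hn).trans_lt ?_
  rw [Real.exp_lt_one_iff]
  have := wt_pos hδ n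
  linarith

lemma hhD_differentiableOn (hδ : IsWt δ) : DifferentiableOn ℂ (hhD δ) (Metric.ball 0 1) := by
  have h1 : DifferentiableOn ℂ cay (Metric.ball 0 1) := by
    intro z hz
    unfold cay
    refine DifferentiableAt.differentiableWithinAt ?_
    refine DifferentiableAt.div (by fun_prop) (by fun_prop) ?_
    intro h
    have : z = 1 := by linear_combination -h
    rw [this, mem_ball_zero_iff] at hz; simp at hz
  have h2 : Set.MapsTo cay (Metric.ball 0 1) {w | 0 < w.re} := fun z hz => cay_re_pos (mem_ball_zero_iff.1 hz)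
  exact (((ggD_differentiableOn hδ).comp h1 h2).neg).cexp

/-- radial limits of `h` -/
lemma hhD_radial (hδ : IsWt δ) {ζ : ℂ} (hζ : ‖ζ‖ = 1) (h1 : ζ ≠ 1) :
    Tendsto (fun r : ℝ => hhD δ (r * ζ)) (𝓝[<] 1) (𝓝 (hhD δ ζ)) := by
  have hne : (1 : ℂ) - ζ ≠ 0 := sub_ne_zero.2 (Ne.symm h1)
  have hre : (cay ζ).re = 0 := by rw [cay_re, hζ]; simp
  have hc : ContinuousAt cay ζ := by
    unfold cay
    exact ContinuousAt.div (by fun_prop) (by fun_prop) hne
  have hr : Tendsto (fun r : ℝ => (r : ℂ) * ζ) (𝓝[<] 1) (𝓝 ζ) := by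
    have : Continuous (fun r : ℝ => (r : ℂ) * ζ) := by fun_prop
    have h := this.tendsto 1
    rw [Complex.ofReal_one, one_mul] at h
    exact h.mono_left nhdsWithin_le_nhds
  have hcr : Tendsto (fun r : ℝ => cay ((r : ℂ) * ζ)) (𝓝[<] 1) (𝓝[{w | 0 ≤ w.re}] (cay ζ)) := by
    refine tendsto_nhdsWithin_iff.2 ⟨hc.tendsto.comp hr, ?_⟩
    have hev1 : ∀ᶠ s : ℝ in 𝓝[<] 1, s < 1 := self_mem_nhdsWithin
    have hev2 : ∀ᶠ s : ℝ in 𝓝[<] 1, 0 < s := mem_nhdsWithin_of_mem_nhds (lt_mem_nhds one_pos)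
    filter_upwards [hev1, hev2] with r hr1 hr0
    refine (cay_re_pos ?_).le
    rw [norm_mul, hζ, mul_one, Complex.norm_real, Real.norm_of_nonneg hr0.le]
    exact hr1
  have hg : Tendsto (fun r : ℝ => ggD δ (cay ((r : ℂ) * ζ))) (𝓝[<] 1) (𝓝 (ggD δ (cay ζ))) :=
    (ggD_continuousOn hδ (cay ζ) hre.ge).tendsto.comp hcr
  exact (Complex.continuous_exp.tendsto _).comp hg.neg

/-- boundary size of `h` near the point `1` -/
lemma hhD_boundary (hδ : IsWt δ) {θ : ℝ} (h0 : 0 < θ) (h1 : θ < 1) :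
    1 - ‖hhD δ (Complex.exp (θ * I))‖ ^ 2 ≤ 12 * δ ⌊1 / θ⌋₊ := by
  have hζ : ‖Complex.exp (θ * I)‖ = 1 := Complex.norm_exp_ofReal_mul_I θ
  set ζ := Complex.exp (θ * I) with hζd
  have hcos : ζ.re = Real.cos θ := Complex.exp_ofReal_mul_I_re θ
  have hsin : ζ.im = Real.sin θ := Complex.exp_ofReal_mul_I_im θ
  have hcl : Real.cos θ < 1 := by
    have := Real.cos_lt_cos_of_nonneg_of_le_pi (x := 0) (y := θ) le_rfl (by linarith [Real.pi_gt_three]) h0
    simpa using this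
  have hn : ‖1 - ζ‖ ^ 2 = 2 * (1 - Real.cos θ) := by
    rw [Complex.sq_norm, Complex.normSq_apply]
    simp only [sub_re, one_re, sub_im, one_im, hcos, hsin]
    nlinarith [Real.sin_sq_add_cos_sq θ]
  have hre : (cay ζ).re = 0 := by rw [cay_re, hζ]; simp
  set y := (cay ζ).im with hy
  have hyv : y = Real.sin θ / (1 - Real.cos θ) := by
    rw [hy, cay_im, hsin, hn]
    have : 1 - Real.cos θ ≠ 0 := by linarith
    field_simp
  have hy1 : 1 / θ ≤ y := by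
    rw [hyv, div_le_div_iff₀ h0 (by linarith)]
    have hs : θ - θ ^ 3 / 6 < Real.sin θ := Real.sin_gt_sub_cube h0
    have hc := Real.one_sub_sq_div_two_le_cos (x := θ)
    nlinarith [sq_nonneg θ, pow_pos h0 3, pow_pos h0 2]
  have hcay : cay ζ = (y : ℂ) * I := by
    apply Complex.ext
    · rw [hre]; simp
    · simp [hy]
  set m := ⌊1 / θ⌋₊ with hm
  have hmy : (m : ℝ) ≤ y := (Nat.floor_le (by positivity)).trans hy1
  have hG := ggD_re_le hδ m hmy
  rw [← hcay] at hG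
  have hh1 : ‖hhD δ ζ‖ ^ 2 = Real.exp (-(2 * (ggD δ (cay ζ)).re)) := by
    rw [hhD_norm, ← Real.exp_nat_mul]
    congr 1
    push_cast; ring
  rw [hh1]
  have h3 := Real.add_one_le_exp (-(2 * (ggD δ (cay ζ)).re))
  have h4 : δ m * (1 / 2 : ℝ) ^ m ≤ δ m := by
    have h5 : (1 / 2 : ℝ) ^ m ≤ 1 := pow_le_one₀ (by norm_num) (by norm_num)
    have := hδ.pos m
    nlinarith
  linarith

variable {N M : Type*} [NormedAddCommGroup N] [InnerProductSpace ℂ N] [CompleteSpace N]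
  [NormedAddCommGroup M] [InnerProductSpace ℂ M] [CompleteSpace M]

/-- the counterexample -/
noncomputable def chiD (δ : ℕ → ℝ) (e : M) (f : N) (z : ℂ) : M →L[ℂ] N := (z * hhD δ z) • PP e f

lemma chiD_norm (e : M) (f : N) (he : ‖e‖ = 1) (hf : ‖f‖ = 1) (z : ℂ) (hz : ‖z‖ ≤ 1) : ‖chiD δ e f z‖ ≤ ‖hhD δ z‖ := by
  unfold chiD
  rw [norm_smul, norm_mul]
  have h := PP_norm e f he hf
  calc ‖z‖ * ‖hhD δ z‖ * ‖PP e f‖ ≤ 1 * ‖hhD δ z‖ * 1 := by gcongr
    _ = _ := by ring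

lemma chiD_inB0 (hδ : IsWt δ) (e : M) (f : N) (he : ‖e‖ = 1) (hf : ‖f‖ = 1) : InB0 (chiD δ e f) := by
  refine ⟨⟨?_, fun z hz => ?_⟩, ?_⟩
  · unfold chiD
    exact (differentiableOn_id.mul (hhD_differentiableOn hδ)).smul_const _
  · have hz1 := mem_ball_zero_iff.1 hz
    exact (chiD_norm e f he hf z hz1.le).trans (hhD_lt_one hδ (cay_re_pos hz1).le).le
  · unfold chiD; simp

theorem chiD_inBa [Nontrivial N] (hδ : IsWt δ) (e : M) (f : N) (he : ‖e‖ = 1) (hf : ‖f‖ = 1) : InBa (chiD δ e f) := by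
  refine ⟨chiD_inB0 hδ e f he hf, fun ε hε σ hσ => ?_⟩
  set A : ℕ → Set TT := fun n => {θ | ∀ r : ℝ, 0 < r → r < 1 → (cay (r * pt θ)).im ≤ n} with hA
  refine ac_main hσ (FF_zero (chiD_inB0 hδ e f he hf).2) A (fun n => ?_) (fun θ => ?_)
    (fun n => 2 / (1 - Real.exp (-(δ n * (1 / 2 : ℝ) ^ n)))) (fun n => ?_) (fun n θ hθ r hr0 hr1 => ?_)
  · have : A n = ⋂ r : ℝ, ⋂ _ : 0 < r, ⋂ _ : r < 1, {θ | (cay (r * pt θ)).im ≤ n} := by
      ext θ; simp [hA]
    rw [this]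
    refine IsClosed.measurableSet (isClosed_iInter fun r => isClosed_iInter fun hr0 => isClosed_iInter fun hr1 => ?_)
    refine isClosed_le ?_ continuous_const
    refine Complex.continuous_im.comp ?_
    rw [continuous_iff_continuousAt]
    intro θ
    have hc : ContinuousAt (fun θ : TT => (r : ℂ) * pt θ) θ := (continuous_const.mul pt_continuous).continuousAt
    refine ContinuousAt.comp (f := fun θ : TT => (r : ℂ) * pt θ) (g := cay) (cay_continuousAt ?_) hc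
    intro h
    have : ‖(r : ℂ) * pt θ‖ = 1 := by rw [h]; simp
    rw [norm_mul, pt_norm, mul_one, Complex.norm_real, Real.norm_of_nonneg hr0.le] at this
    linarith
  · exact cay_radial_im (pt_norm θ)
  · have : Real.exp (-(δ n * (1 / 2 : ℝ) ^ n)) < 1 := by
      rw [Real.exp_lt_one_iff]
      have := wt_pos hδ n
      linarith
    have : 0 < 1 - Real.exp (-(δ n * (1 / 2 : ℝ) ^ n)) := by linarith
    positivity
  · have hq : Real.exp (-(δ n * (1 / 2 : ℝ) ^ n)) < 1 := by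
      rw [Real.exp_lt_one_iff]
      have := wt_pos hδ n
      linarith
    have hn : ‖(r : ℂ) * pt θ‖ = r := by
      rw [norm_mul, pt_norm, mul_one, Complex.norm_real, Real.norm_of_nonneg hr0.le]
    have hn1 : ‖(r : ℂ) * pt θ‖ < 1 := by rw [hn]; exact hr1
    refine FF_bound hq ?_ (hε.2 _ (mem_ball_zero_iff.2 hn1))
    exact (chiD_norm e f he hf _ hn1.le).trans (hhD_norm_le hδ n (cay_re_pos hn1).le (hθ r hr0 hr1))

/-- the boundary function -/
noncomputable def XXD (δ : ℕ → ℝ) (e : M) (f : N) (θ : TT) : M →L[ℂ] N := (pt θ * hhD δ (pt θ)) • PP e f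

lemma chiD_boundary (hδ : IsWt δ) (e : M) (f : N) : IsBoundary (chiD δ e f) (XXD δ e f) := by
  filter_upwards [ae_ne_zero] with θ hθ
  unfold chiD XXD
  refine Tendsto.smul_const ?_ _
  refine Tendsto.mul ?_ (hhD_radial hδ (pt_norm θ) hθ)
  have : Continuous (fun r : ℝ => (r : ℂ) * pt θ) := by fun_prop
  have h := this.tendsto 1
  rw [Complex.ofReal_one, one_mul] at h
  exact h.mono_left nhdsWithin_le_nhds

theorem mainD (hδ : IsWt δ) (N M : Type*) [NormedAddCommGroup N] [InnerProductSpace ℂ N] [CompleteSpace N] [FiniteDimensional ℂ N]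
    [NormedAddCommGroup M] [InnerProductSpace ℂ M] [CompleteSpace M] [FiniteDimensional ℂ M]
    (hN : 0 < Module.finrank ℂ N) (hNM : Module.finrank ℂ N ≤ Module.finrank ℂ M) :
    ∃ χ : ℂ → M →L[ℂ] N, InBa χ ∧ ∃ X : TT → M →L[ℂ] N, IsBoundary χ X ∧ (∀ θ, 0 < szDet (X θ)) ∧
      ∀ θ : ℝ, 0 < θ → θ < 1 → szDet (X (θ : TT)) ≤ 12 * δ ⌊1 / θ⌋₊ := by
  classical
  have hnt : Nontrivial N := Module.nontrivial_of_finrank_pos hN
  have hM : 0 < Module.finrank ℂ M := by omega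
  set b := stdOrthonormalBasis ℂ M with hb
  set i₀ : Fin (Module.finrank ℂ M) := ⟨0, hM⟩ with hi
  obtain ⟨f, hf⟩ : ∃ f : N, ‖f‖ = 1 := ⟨stdOrthonormalBasis ℂ N ⟨0, hN⟩, (stdOrthonormalBasis ℂ N).orthonormal.1 _⟩
  have hdet : ∀ θ, szDet (XXD δ (b i₀) f θ) = 1 - ‖hhD δ (pt θ)‖ ^ 2 := by
    intro θ
    unfold XXD
    rw [det_calc b i₀ f hf, norm_mul, pt_norm, one_mul]
  refine ⟨chiD δ (b i₀) f, chiD_inBa hδ (b i₀) f (b.orthonormal.1 i₀) hf, XXD δ (b i₀) f,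
    chiD_boundary hδ _ _, fun θ => ?_, fun θ h0 h1 => ?_⟩
  · rw [hdet]
    have h1 : (cay (pt θ)).re = 0 := by rw [cay_re, pt_norm]; simp
    have h2 := hhD_lt_one hδ h1.ge
    nlinarith [norm_nonneg (hhD δ (pt θ))]
  · rw [hdet, pt_coe]
    exact hhD_boundary hδ h0 h1

end Pool.Agent.Y285.SZ
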